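import Mathlib
import Pool.Agent.N176.OW.Stm2
import Pool.Agent.N176.GP.Block

set_option autoImplicit false

/-!
# Project OW, task BL: Laplace transform of a block, given the first digits
-/

namespace Pool.Agent.N221.OW

open Finset Filter Topology MeasureTheory
open Pool.Agent.N176.GP (cnt XX SS sum_one sum_two geo_dist card_primes log_div_le cell_up cell_pair XX_sq XX_nonneg)
open Pool.Agent.H305R2 (roughPart)
open Pool.Agent.N176.OW

/-- comparison of the remainders of the binomial expansion -/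
lemma binom_cmp (θ s1 : ℝ) (hθ0 : 0 ≤ θ) (hθ1 : θ ≤ 1) (hs1 : 0 ≤ s1) (N : ℕ) :
    0 ≤ (1 + s1) ^ N - 1 - N * s1 ∧
    (1 + θ * s1) ^ N - 1 - N * (θ * s1) ≤ θ ^ 2 * ((1 + s1) ^ N - 1 - N * s1) := by
  induction N with
  | zero => simp
  | succ N ih =>
    obtain ⟨ih0, ih1⟩ := ih
    have hN : (0 : ℝ) ≤ N := Nat.cast_nonneg N
    have e1 : (1 + s1) ^ (N + 1) - 1 - ((N + 1 : ℕ) : ℝ) * s1 =
        (1 + s1) * ((1 + s1) ^ N - 1 - N * s1) + N * s1 ^ 2 := by push_cast; ring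
    have e2 : (1 + θ * s1) ^ (N + 1) - 1 - ((N + 1 : ℕ) : ℝ) * (θ * s1) =
        (1 + θ * s1) * ((1 + θ * s1) ^ N - 1 - N * (θ * s1)) + N * (θ * s1) ^ 2 := by push_cast; ring
    rw [e1, e2]
    refine ⟨by positivity, ?_⟩
    have hθs : θ * s1 ≤ s1 := mul_le_of_le_one_left hs1 hθ1
    have h0 : 0 ≤ θ * s1 := by positivity
    calc (1 + θ * s1) * ((1 + θ * s1) ^ N - 1 - N * (θ * s1)) + N * (θ * s1) ^ 2
        ≤ (1 + θ * s1) * (θ ^ 2 * ((1 + s1) ^ N - 1 - N * s1)) + N * (θ * s1) ^ 2 := by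
          gcongr
      _ ≤ (1 + s1) * (θ ^ 2 * ((1 + s1) ^ N - 1 - N * s1)) + N * (θ * s1) ^ 2 := by
          gcongr
      _ = θ ^ 2 * ((1 + s1) * ((1 + s1) ^ N - 1 - N * s1) + N * s1 ^ 2) := by ring

lemma pow_up (s s1 : ℝ) (hs0 : 0 ≤ s) (hs : s ≤ s1) (hs1 : 0 < s1) (N : ℕ) :
    (1 + s) ^ N ≤ 1 + s * N + (s / s1) ^ 2 * ((1 + s1) ^ N - 1) := by
  obtain ⟨h0, h⟩ := binom_cmp (s / s1) s1 (by positivity) ((div_le_one hs1).2 hs) hs1.le N
  have e : s / s1 * s1 = s := div_mul_cancel₀ s hs1.ne'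
  rw [e] at h
  have h2 : (s / s1) ^ 2 * ((1 + s1) ^ N - 1 - N * s1) ≤ (s / s1) ^ 2 * ((1 + s1) ^ N - 1) := by
    refine mul_le_mul_of_nonneg_left ?_ (by positivity)
    have : (0 : ℝ) ≤ N * s1 := by positivity
    linarith
  linarith [mul_comm (N : ℝ) s]

lemma pow_down (σ : ℝ) (h0 : 0 ≤ σ) (h1 : σ ≤ 1) (N : ℕ) :
    (1 - σ) ^ N ≤ 1 - σ * N + σ ^ 2 * (N : ℝ) ^ 2 := by
  induction N with
  | zero => simp
  | succ N ih =>
    have hN : (0 : ℝ) ≤ N := Nat.cast_nonneg N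
    calc (1 - σ) ^ (N + 1) = (1 - σ) * (1 - σ) ^ N := by ring
      _ ≤ (1 - σ) * (1 - σ * N + σ ^ 2 * (N : ℝ) ^ 2) :=
          mul_le_mul_of_nonneg_left ih (by linarith)
      _ ≤ 1 - σ * ((N + 1 : ℕ) : ℝ) + σ ^ 2 * (((N + 1 : ℕ) : ℝ)) ^ 2 := by
          push_cast
          have : 0 ≤ σ ^ 3 * (N : ℝ) ^ 2 := by positivity
          have h3 : 0 ≤ σ ^ 2 * (N : ℝ) := by positivity
          nlinarith [sq_nonneg σ]

lemma hits_card (T : Finset ℕ) (b t n : ℕ) : ((hits T b t n).card : ℝ) = SS T b t n := by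
  unfold hits SS XX
  rw [Finset.card_filter]
  push_cast
  rfl

lemma mean_cell {b : ℕ} (hb : 2 ≤ b) {T : Finset ℕ} {z j t : ℕ} (hT : ∀ p ∈ T, z ≤ p ∧ p ≤ t) :
    ∑ n ∈ cell b z t j, ((hits T b t n).card : ℝ) = mT b z T j * (b : ℝ) ^ (t - z) := by
  simp only [hits_card]
  unfold SS cell mT
  rw [Finset.sum_comm, Finset.sum_mul]
  refine Finset.sum_congr rfl fun p hp => ?_
  obtain ⟨h1, h2⟩ := hT p hp
  rw [sum_one hb h1 h2]
  have h5 : (b : ℝ) ^ (t - z) = (b : ℝ) ^ (t - p) * (b : ℝ) ^ (p - z) := by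
    rw [← pow_add]; congr 1; omega
  have hb0 : (b : ℝ) ^ (p - z) ≠ 0 := by positivity
  rw [h5]
  field_simp

lemma card_cell (b z t j : ℕ) : ((cell b z t j).card : ℝ) = (b : ℝ) ^ (t - z) := by
  unfold cell
  rw [Nat.card_Ico]
  have : (j + 1) * b ^ (t - z) - j * b ^ (t - z) = b ^ (t - z) := by
    rw [add_mul, one_mul]; omega
  rw [this]; push_cast; rfl

/-- second moment of the number of exponents of a block -/
theorem second_moment {b : ℕ} (hb : 2 ≤ b) : ∃ D : ℝ, 0 < D ∧ ∃ P : ℕ,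
    ∀ x ≥ P, ∀ T : Finset ℕ, (∀ p ∈ T, p.Prime ∧ x < p ∧ p ≤ 2 * x) → ∀ z : ℕ, 64 * z ≤ x →
    ∀ t : ℕ, 2 * x ≤ t → ∀ j : ℕ, 1 ≤ j → j ≤ b ^ (2 * z) →
    ∑ n ∈ cell b z t j, SS T b t n ^ 2 ≤ D * VT T * (b : ℝ) ^ (t - z) := by
  classical
  obtain ⟨C1, hC1, P2, hup⟩ := cell_up hb
  obtain ⟨C2, hC2, P3, hpair⟩ := cell_pair hb
  obtain ⟨C3, hC3, hcard⟩ := card_primes
  set C := C1 + C2 with hC
  refine ⟨C * (2 * C3 + 4) * 4, by positivity, max P2 (max P3 2),
    fun x hx T hT z hz t ht j hj1 hj2 => ?_⟩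
  have hxP2 : P2 ≤ x := (le_max_left _ _).trans hx
  have hxP3 : P3 ≤ x := ((le_max_left _ _).trans (le_max_right _ _)).trans hx
  have hx2 : 2 ≤ x := ((le_max_right _ _).trans (le_max_right _ _)).trans hx
  have h32z : 32 * z ≤ x := by omega
  have hzx : z ≤ x := by omega
  have hx2r : (2 : ℝ) ≤ x := by exact_mod_cast hx2
  have hx0 : (0 : ℝ) < x := by linarith
  have hlogx : 0 < Real.log x := Real.log_pos (by linarith)
  have hb0 : (0 : ℝ) < b := by positivity
  set N := (b : ℝ) ^ (t - z) with hN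
  have hN0 : 0 < N := by positivity
  unfold cell
  set Ω := Ico (j * b ^ (t - z)) ((j + 1) * b ^ (t - z)) with hΩ
  set W := 2 * Real.log x / x with hW
  have hW0 : 0 < W := by positivity
  have hTW : (T.card : ℝ) * W ≤ 2 * C3 := by
    calc (T.card : ℝ) * W ≤ (C3 * x / Real.log x) * W := by
          gcongr
          exact hcard x hx2 T hT
      _ = 2 * C3 := by rw [hW]; field_simp
  have hTV : (T.card : ℝ) * W ≤ 4 * VT T := by
    unfold VT
    rw [← nsmul_eq_mul, ← Finset.sum_const, Finset.mul_sum]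
    refine Finset.sum_le_sum fun p hp => ?_
    obtain ⟨h1, h2, h3⟩ := hT p hp
    have hpx : (x : ℝ) ≤ p := by exact_mod_cast h2.le
    have hp0 : (0 : ℝ) < p := by linarith
    have hp2 : (p : ℝ) ≤ 2 * x := by exact_mod_cast h3
    have h4 : Real.log x ≤ Real.log p := Real.log_le_log hx0 hpx
    rw [hW, div_le_iff₀ hx0]
    have h5 : Real.log x / (2 * x) ≤ Real.log p / p := by
      exact div_le_div₀ (by linarith) h4 hp0 hp2
    calc 2 * Real.log x = 4 * (Real.log x / (2 * x)) * x := by field_simp; ring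
      _ ≤ 4 * (Real.log p / p) * x := by gcongr
  have hF : ∀ p ∈ T, ∀ q ∈ T, p ≤ q →
      ∑ n ∈ Ω, XX p (n / b ^ (t - p)) * XX q (n / b ^ (t - q)) ≤
        C * (W ^ 2 + ((b : ℝ) ^ ((p - q) + (q - p)))⁻¹ * W) * N := by
    intro p hp q hq hpq
    obtain ⟨h1, h2, h3⟩ := hT p hp
    obtain ⟨h1', h2', h3'⟩ := hT q hq
    have hwp : Real.log p / p ≤ W := log_div_le hx2 h2 h3
    have hwp0 : 0 ≤ Real.log p / p := by
      have := Real.log_natCast_nonneg p
      positivity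
    rcases Nat.eq_or_lt_of_le hpq with h | h
    · subst h
      have e : (p - p) + (p - p) = 0 := by omega
      rw [e, pow_zero, inv_one, one_mul]
      simp only [XX_sq]
      rw [hΩ, sum_one hb (by omega) (by omega)]
      have h5 : N = (b : ℝ) ^ (t - p) * (b : ℝ) ^ (p - z) := by
        rw [hN, ← pow_add]; congr 1; omega
      calc (b : ℝ) ^ (t - p) * (cnt b z j p : ℝ) ≤
            (b : ℝ) ^ (t - p) * (C1 * (Real.log p / p) * (b : ℝ) ^ (p - z)) :=
            mul_le_mul_of_nonneg_left (hup p (by omega) z (by omega) j hj1 hj2) (by positivity)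
        _ = C1 * (Real.log p / p) * N := by rw [h5]; ring
        _ ≤ C * (W ^ 2 + W) * N := by
            gcongr
            · linarith
            · nlinarith
    · rw [hΩ, sum_two hb (by omega) hpq (by omega)]
      obtain ⟨d, hd⟩ := Nat.exists_eq_add_of_lt h
      have hq' : q = p + (d + 1) := by omega
      have e : (p - q) + (q - p) = d + 1 := by omega
      have e3 : q - p = d + 1 := by omega
      rw [e, e3]
      have h6 := hpair p (by omega) (d + 1) (by omega) (by omega) z (by omega) j hj1 hj2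
      rw [← hq'] at h6
      have h5 : N = (b : ℝ) ^ (t - q) * (b : ℝ) ^ (q - z) := by
        rw [hN, ← pow_add]; congr 1; omega
      calc (b : ℝ) ^ (t - q) * _ ≤ (b : ℝ) ^ (t - q) *
            (C2 * ((Real.log p / p) ^ 2 + ((b : ℝ) ^ (d + 1))⁻¹ * (Real.log p / p)) * (b : ℝ) ^ (q - z)) :=
            mul_le_mul_of_nonneg_left h6 (by positivity)
        _ = C2 * ((Real.log p / p) ^ 2 + ((b : ℝ) ^ (d + 1))⁻¹ * (Real.log p / p)) * N := by rw [h5]; ring
        _ ≤ C * (W ^ 2 + ((b : ℝ) ^ (d + 1))⁻¹ * W) * N := by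
            gcongr
            linarith
  have hF' : ∀ p ∈ T, ∀ q ∈ T,
      ∑ n ∈ Ω, XX p (n / b ^ (t - p)) * XX q (n / b ^ (t - q)) ≤
        C * (W ^ 2 + ((b : ℝ) ^ ((p - q) + (q - p)))⁻¹ * W) * N := by
    intro p hp q hq
    rcases le_total p q with h | h
    · exact hF p hp q hq h
    · have := hF q hq p hp h
      rw [add_comm (q - p) (p - q)] at this
      refine le_trans (le_of_eq ?_) this
      exact Finset.sum_congr rfl fun n _ => mul_comm _ _
  have h1 : ∑ n ∈ Ω, SS T b t n ^ 2 = ∑ p ∈ T, ∑ q ∈ T,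
      ∑ n ∈ Ω, XX p (n / b ^ (t - p)) * XX q (n / b ^ (t - q)) := by
    have h2 : ∀ n, SS T b t n ^ 2 = ∑ p ∈ T, ∑ q ∈ T, XX p (n / b ^ (t - p)) * XX q (n / b ^ (t - q)) := by
      intro n
      unfold SS
      rw [sq, Finset.sum_mul_sum]
    simp only [h2]
    rw [Finset.sum_comm]
    refine Finset.sum_congr rfl fun p _ => ?_
    rw [Finset.sum_comm]
  rw [h1]
  calc _ ≤ ∑ p ∈ T, ∑ q ∈ T, C * (W ^ 2 + ((b : ℝ) ^ ((p - q) + (q - p)))⁻¹ * W) * N :=
        Finset.sum_le_sum fun p hp => Finset.sum_le_sum fun q hq => hF' p hp q hq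
    _ = C * N * ∑ p ∈ T, (T.card * W ^ 2 + (∑ q ∈ T, ((b : ℝ) ^ ((p - q) + (q - p)))⁻¹) * W) := by
        rw [Finset.mul_sum]
        refine Finset.sum_congr rfl fun p _ => ?_
        rw [Finset.sum_mul, ← nsmul_eq_mul, ← Finset.sum_const, ← Finset.sum_add_distrib, Finset.mul_sum]
        refine Finset.sum_congr rfl fun q _ => by ring
    _ ≤ C * N * ∑ p ∈ T, (T.card * W ^ 2 + 4 * W) := by
        gcongr with p hp
        exact geo_dist hb T p
    _ = C * N * ((T.card * W + 4) * (T.card * W)) := by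
        rw [Finset.sum_const, nsmul_eq_mul]; ring
    _ ≤ C * N * ((2 * C3 + 4) * (4 * VT T)) := by gcongr
    _ = C * (2 * C3 + 4) * 4 * VT T * N := by ring

theorem bl (h : S_EX) : S_BL := by
  classical
  intro b hb
  obtain ⟨s1, C, c, hs1, hs12, hC, hc, P1, hEX⟩ := h b hb
  obtain ⟨D, hD, P2, hSM⟩ := second_moment hb
  refine ⟨s1, C / s1 ^ 2 + D, hs1, hs12, by positivity, max P1 P2,
    fun x hx T hT z hz t ht j hj1 hj2 δ hδ hm s hs => ?_⟩
  have hx1 : P1 ≤ x := (le_max_left _ _).trans hx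
  have hx2 : P2 ≤ x := (le_max_right _ _).trans hx
  obtain ⟨hE, -⟩ := hEX x hx1 T hT z hz t ht j hj1 hj2
  have hS := hSM x hx2 T hT z hz t ht j hj1 hj2
  have hmean : ∑ n ∈ cell b z t j, ((hits T b t n).card : ℝ) = mT b z T j * (b : ℝ) ^ (t - z) :=
    mean_cell hb fun p hp => by
      obtain ⟨h1, h2, h3⟩ := hT p hp
      constructor <;> omega
  have hVT : 0 ≤ VT T := by
    unfold VT
    refine Finset.sum_nonneg fun p _ => ?_
    have := Real.log_natCast_nonneg p
    positivity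
  have hb0 : (0 : ℝ) < b := by positivity
  set N := (b : ℝ) ^ (t - z) with hN
  have hN0 : 0 < N := by positivity
  set M := mT b z T j with hM
  set κ := kap b * VT T with hκ
  obtain ⟨hm1, hm2⟩ := abs_le.1 hm
  set F := (cell b z t j).filter (fun n => ((hits T b t n).card : ℝ) ≤ √(Real.log x)) with hFdef
  have hFs : F ⊆ cell b z t j := filter_subset _ _
  rcases le_total 0 s with hs0 | hs0
  · have hss : s ≤ s1 := (le_abs_self s).trans hs
    have h1 : ∑ n ∈ F, (1 + s) ^ (hits T b t n).card ≤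
        ∑ n ∈ F, (1 + s * ((hits T b t n).card : ℝ)) +
          (s / s1) ^ 2 * ∑ n ∈ F, ((1 + s1) ^ (hits T b t n).card - 1) := by
      rw [Finset.mul_sum, ← Finset.sum_add_distrib]
      exact Finset.sum_le_sum fun n _ => pow_up s s1 hs0 hss hs1 _
    have h2 : ∑ n ∈ F, (1 + s * ((hits T b t n).card : ℝ)) ≤ N * (1 + s * M) := by
      calc _ ≤ ∑ n ∈ cell b z t j, (1 + s * ((hits T b t n).card : ℝ)) :=
            Finset.sum_le_sum_of_subset_of_nonneg hFs fun _ _ _ => by positivity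
        _ = N * (1 + s * M) := by
            rw [Finset.sum_add_distrib, ← Finset.mul_sum, hmean, Finset.sum_const, nsmul_eq_mul,
              card_cell]
            ring
    have h3 : (s / s1) ^ 2 * ∑ n ∈ F, ((1 + s1) ^ (hits T b t n).card - 1) ≤
        (s / s1) ^ 2 * (C * VT T * N) := mul_le_mul_of_nonneg_left hE (by positivity)
    have h4 : s * M + (s / s1) ^ 2 * (C * VT T) ≤
        s * κ + |s| * δ + (C / s1 ^ 2 + D) * s ^ 2 * VT T := by
      rw [abs_of_nonneg hs0]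
      have e : (s / s1) ^ 2 * (C * VT T) = C / s1 ^ 2 * s ^ 2 * VT T := by
        rw [div_pow]; ring
      have e2 : s * M ≤ s * κ + s * δ := by
        have : M ≤ κ + δ := by linarith
        calc s * M ≤ s * (κ + δ) := mul_le_mul_of_nonneg_left this hs0
          _ = _ := by ring
      have e3 : 0 ≤ D * s ^ 2 * VT T := by positivity
      rw [e]
      linarith [add_mul (C / s1 ^ 2) D (s ^ 2), add_mul (C / s1 ^ 2 * s ^ 2) (D * s ^ 2) (VT T)]
    calc ∑ n ∈ F, (1 + s) ^ (hits T b t n).card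
        ≤ N * (1 + s * M) + (s / s1) ^ 2 * (C * VT T * N) := by linarith
      _ = (1 + (s * M + (s / s1) ^ 2 * (C * VT T))) * N := by ring
      _ ≤ Real.exp (s * M + (s / s1) ^ 2 * (C * VT T)) * N := by
          refine mul_le_mul_of_nonneg_right ?_ hN0.le
          rw [add_comm]; exact Real.add_one_le_exp _
      _ ≤ _ := by
          refine mul_le_mul_of_nonneg_right (Real.exp_le_exp.2 h4) hN0.le
  · set σ := -s with hσ
    have hσ0 : 0 ≤ σ := by rw [hσ]; linarith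
    have hσs : |s| = σ := abs_of_nonpos hs0
    have hσ1 : σ ≤ 1 := by
      have : |s| ≤ s1 := hs
      rw [hσs] at this
      linarith
    have e0 : (1 : ℝ) + s = 1 - σ := by rw [hσ]; ring
    have e1 : s = -σ := by rw [hσ]; ring
    have h1 : ∑ n ∈ F, (1 + s) ^ (hits T b t n).card ≤
        ∑ n ∈ cell b z t j, (1 - σ * ((hits T b t n).card : ℝ) +
          σ ^ 2 * ((hits T b t n).card : ℝ) ^ 2) := by
      calc ∑ n ∈ F, (1 + s) ^ (hits T b t n).card
          ≤ ∑ n ∈ cell b z t j, (1 + s) ^ (hits T b t n).card := by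
            refine Finset.sum_le_sum_of_subset_of_nonneg hFs fun _ _ _ => ?_
            rw [e0]
            exact pow_nonneg (by linarith) _
        _ ≤ _ := by
            refine Finset.sum_le_sum fun n _ => ?_
            rw [e0]
            exact pow_down σ hσ0 hσ1 _
    have h2 : ∑ n ∈ cell b z t j, (1 - σ * ((hits T b t n).card : ℝ) +
          σ ^ 2 * ((hits T b t n).card : ℝ) ^ 2) =
        N * (1 - σ * M) + σ ^ 2 * ∑ n ∈ cell b z t j, SS T b t n ^ 2 := by
      rw [Finset.sum_add_distrib, Finset.sum_sub_distrib, ← Finset.mul_sum, ← Finset.mul_sum, hmean,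
        Finset.sum_const, nsmul_eq_mul, card_cell]
      simp only [hits_card]
      ring
    have h3 : σ ^ 2 * ∑ n ∈ cell b z t j, SS T b t n ^ 2 ≤ σ ^ 2 * (D * VT T * N) :=
      mul_le_mul_of_nonneg_left hS (by positivity)
    have h4 : -(σ * M) + σ ^ 2 * (D * VT T) ≤
        s * κ + |s| * δ + (C / s1 ^ 2 + D) * s ^ 2 * VT T := by
      rw [hσs]
      have e2 : -(σ * M) ≤ s * κ + σ * δ := by
        have : κ - δ ≤ M := by linarith
        have h5 : σ * (κ - δ) ≤ σ * M := mul_le_mul_of_nonneg_left this hσ0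
        rw [e1]
        linarith [mul_sub σ κ δ, neg_mul σ κ]
      have e3 : 0 ≤ C / s1 ^ 2 * s ^ 2 * VT T := by positivity
      have e4 : σ ^ 2 * (D * VT T) = D * s ^ 2 * VT T := by rw [hσ]; ring
      rw [e4]
      linarith [add_mul (C / s1 ^ 2) D (s ^ 2), add_mul (C / s1 ^ 2 * s ^ 2) (D * s ^ 2) (VT T)]
    calc ∑ n ∈ F, (1 + s) ^ (hits T b t n).card
        ≤ N * (1 - σ * M) + σ ^ 2 * (D * VT T * N) := by linarith
      _ = (1 + (-(σ * M) + σ ^ 2 * (D * VT T))) * N := by ring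
      _ ≤ Real.exp (-(σ * M) + σ ^ 2 * (D * VT T)) * N := by
          refine mul_le_mul_of_nonneg_right ?_ hN0.le
          rw [add_comm]; exact Real.add_one_le_exp _
      _ ≤ _ := by
          refine mul_le_mul_of_nonneg_right (Real.exp_le_exp.2 h4) hN0.le

end Pool.Agent.N221.OW
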